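import Mathlib
import Pool.Agent.Helper434.PSCode
import Pool.Agent.Helper434.PSPattern
import Pool.Agent.Helper434.PSCplx

/-!
For every real `lam ≠ 0` we construct a recurrent pattern Sturmian sequence `x` in `{0,1}^ℤ` such
that the Schroedinger operator `[H ψ](m) = ψ(m+1) + ψ(m-1) + lam x_m ψ(m)` on `ℓ²(ℤ)` has an
eigenvector. The spectral measure of this eigenvector is a point mass, so not every spectral
measure of `H` is singular continuous.
-/

set_option autoImplicit false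

namespace Pool.Agent.Results.MP_940d9d_mp.PointSpectrum

open MeasureTheory

/-- The set of all patterns `x_{m+τ(0)} x_{m+τ(1)} ... x_{m+τ(n-1)}`, `m ∈ ℤ`. -/
def patterns (x : ℤ → Fin 2) {n : ℕ} (τ : Fin n → ℤ) : Set (Fin n → Fin 2) :=
  Set.range fun m : ℤ => fun i : Fin n => x (m + τ i)

/-- The pattern complexity `p^*(n)`: the supremum, over all `0 = τ(0) < τ(1) < ... < τ(n-1)`,
of the number of patterns. -/
noncomputable def patternComplexity (x : ℤ → Fin 2) (n : ℕ) : ℕ∞ :=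
  ⨆ τ : {τ : Fin n → ℤ // StrictMono τ ∧ ∀ h : 0 < n, τ ⟨0, h⟩ = 0}, (patterns x τ.1).encard

/-- `x` is pattern Sturmian: `p^*(n) = 2 n` for all `n ≥ 1`. -/
def PatternSturmian (x : ℤ → Fin 2) : Prop := ∀ n : ℕ, 1 ≤ n → patternComplexity x n = 2 * n

/-- `x` is recurrent: every word `x_a x_{a+1} ... x_{a+n-1}` occurs infinitely often to the right
and infinitely often to the left. -/
def Recurrent (x : ℤ → Fin 2) : Prop :=
  ∀ (a : ℤ) (n : ℕ) (N : ℤ),
    (∃ m, N < m ∧ ∀ i : ℕ, i < n → x (m + i) = x (a + i)) ∧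
      ∃ m, m < N ∧ ∀ i : ℕ, i < n → x (m + i) = x (a + i)

/-- The Hilbert space `ℓ²(ℤ)` of square summable complex sequences. -/
abbrev L2Z : Type := lp (fun _ : ℤ => ℂ) 2

/-- `H` is the operator `[H ψ](m) = ψ(m+1) + ψ(m-1) + lam x_m ψ(m)` on `ℓ²(ℤ)`. -/
def IsSchrodinger (lam : ℝ) (x : ℤ → Fin 2) (H : L2Z →L[ℂ] L2Z) : Prop :=
  ∀ (ψ : L2Z) (m : ℤ), H ψ m = ψ (m + 1) + ψ (m - 1) + (lam : ℂ) * ((x m : ℕ) : ℂ) * ψ m

/-- `μ` is the spectral measure `μ_ψ` of the self-adjoint operator `H`: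
`⟨ψ, f(H) ψ⟩ = ∫ f dμ` for all continuous `f`. -/
def IsSpectralMeasure {X : Type} [NormedAddCommGroup X] [InnerProductSpace ℂ X] [CompleteSpace X]
    (H : X →L[ℂ] X) (ψ : X) (μ : Measure ℝ) : Prop :=
  IsFiniteMeasure μ ∧
    ∀ f : ℝ → ℝ, Continuous f → inner ℂ ψ ((cfc f H) ψ) = ((∫ E, f E ∂μ : ℝ) : ℂ)

/-- **Main theorem.** For every real `lam ≠ 0` there is a recurrent pattern Sturmian sequence `x`
(the coding of an irrational rotation by an interval) for which the operator `H` has an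
eigenvector `ψ` in `ℓ²(ℤ)`, whose spectral measure is the point mass `‖ψ‖² δ_E`. -/
theorem result : ∀ lam : ℝ, lam ≠ 0 →
    ∃ x : ℤ → Fin 2, Recurrent x ∧ PatternSturmian x ∧
      (∃ α β θ : ℝ, Irrational α ∧ 0 < β ∧ β < 1 ∧
        ∀ j : ℤ, x j = 1 ↔ ∃ k : ℤ, 0 < j * α + θ - k ∧ j * α + θ - k ≤ β) ∧
      ∃ H : L2Z →L[ℂ] L2Z, IsSchrodinger lam x H ∧ IsSelfAdjoint H ∧
        ∃ (E : ℝ) (ψ : L2Z), ψ ≠ 0 ∧ H ψ = (E : ℂ) • ψ ∧
          IsSpectralMeasure H ψ (ENNReal.ofReal (‖ψ‖ ^ 2) • Measure.dirac E) ∧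
          ∀ μ : Measure ℝ, IsSpectralMeasure H ψ μ →
            μ = ENNReal.ofReal (‖ψ‖ ^ 2) • Measure.dirac E := by
  intro lam hlam
  obtain ⟨p, q, s, t, kap, x, E, φ, hp0, hq0, hs0, ht0, hk0, hdet, hgr, hs, ht, hk, hx01, hx, hφ0,
    heig⟩ := Pool.Agent.Helper434.PSLim.limit_exists hlam
  obtain ⟨α, β, θ, hirr, hβ0, hβ1, hcode, hpos, hanti, hsmall⟩ :=
    Pool.Agent.Helper434.PSCode.coding hp0 hq0 hs0 ht0 hk0 hdet hgr hs ht hk hx
  -- letters
  set y : ℤ → Fin 2 := fun j => if x j = 1 then 1 else 0 with hy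
  have hyx : ∀ j : ℤ, ((y j : ℕ) : ℤ) = x j := by
    intro j
    simp only [hy]
    rcases hx01 j with h | h <;> rw [h] <;> simp
  have hycode : ∀ j : ℤ, ((y j : ℕ) : ℤ) = ⌈j * α + θ⌉ - ⌈j * α + θ - β⌉ := fun j => by
    rw [hyx, hcode]
  have hqpos : ∀ n, 0 < q n := Pool.Agent.Helper434.PSRot.q_pos hq0 (fun n => by
    have h1 := hgr n
    have h2 := abs_nonneg (s n)
    have h3 := abs_nonneg (t n)
    linarith)
  have hqge : ∀ n : ℕ, (n : ℤ) + 1 ≤ q n := Pool.Agent.Helper434.PSRot.q_ge hq0 (fun n => by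
    have h1 := hgr n
    have h2 := abs_nonneg (s n)
    have h3 := abs_nonneg (t n)
    linarith)
  have hq4 : ∀ n, 4 * q n < q (n + 1) := fun n => by
    have h1 := hgr n
    have h2 := abs_nonneg (s n)
    have h3 := abs_nonneg (t n)
    linarith
  have hapx : ∀ δ : ℝ, 0 < δ → ∃ Q P : ℤ, 0 < Q ∧ 0 < Q * α - P ∧ Q * α - P < δ := by
    intro δ hδ
    obtain ⟨N, hN⟩ := hsmall δ hδ
    exact ⟨q N, p N, hqpos N, hpos N, hN N le_rfl⟩
  refine ⟨y, ?_, ?_, ⟨α, β, θ, hirr, hβ0, hβ1, ?_⟩, ?_⟩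
  · -- recurrent
    intro a n N
    obtain ⟨δ, hδ, hrec⟩ := Pool.Agent.Helper434.PSPattern.recur hycode a n
    obtain ⟨M, hM⟩ := hsmall δ hδ
    set k := max M (|N| + |a|).toNat with hk'
    have hkM : M ≤ k := le_max_left _ _
    have hkN : (|N| + |a|).toNat ≤ k := le_max_right _ _
    have hkN' : |N| + |a| ≤ (k : ℤ) := by
      have h1 : |N| + |a| ≤ ((|N| + |a|).toNat : ℤ) := Int.self_le_toNat _
      have h2 : ((|N| + |a|).toNat : ℤ) ≤ (k : ℤ) := by exact_mod_cast hkN
      exact h1.trans h2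
    have h1 := hM k hkM
    have h2 := hpos k
    have h3 := hanti k
    have h4 := hpos (k + 1)
    have h5 := hqge k
    have h6 := hq4 k
    have h7 := le_abs_self N
    have h8 := neg_abs_le N
    have h9 := le_abs_self a
    have h10 := neg_abs_le a
    constructor
    · refine ⟨a + (q (k + 1) - q k), by linarith, fun i hi => ?_⟩
      exact hrec (q (k + 1) - q k) (p (k + 1) - p k) (by push_cast; linarith)
        (by push_cast; linarith) i hi
    · refine ⟨a + (-q k), by linarith, fun i hi => ?_⟩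
      exact hrec (-q k) (-p k) (by push_cast; linarith) (by push_cast; linarith) i hi
  · -- pattern Sturmian
    intro n hn
    unfold patternComplexity
    apply le_antisymm
    · apply iSup_le
      intro τ
      exact Pool.Agent.Helper434.PSPattern.upper hycode hn τ.1
    · obtain ⟨τ, h1, h2, h3⟩ := Pool.Agent.Helper434.PSPattern.lower hβ0 hβ1 hycode hn hapx
      exact h3.trans (le_iSup (fun τ : {τ : Fin n → ℤ // StrictMono τ ∧
        ∀ h : 0 < n, τ ⟨0, h⟩ = 0} => (patterns y τ.1).encard) ⟨τ, h1, h2⟩)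
  · -- the coding
    intro j
    have h0 := hycode j
    set z := (j : ℝ) * α + θ with hz
    have h1 := Int.le_ceil z
    have h2 := Int.ceil_lt_add_one z
    constructor
    · intro h
      rw [h] at h0
      have h3 : ⌈z - β⌉ = ⌈z⌉ - 1 := by
        have : (((1 : Fin 2) : ℕ) : ℤ) = 1 := rfl
        rw [this] at h0
        linarith
      refine ⟨⌈z⌉ - 1, ?_, ?_⟩
      · push_cast; linarith
      · have h4 := Int.le_ceil (z - β)
        rw [h3] at h4
        push_cast at h4 ⊢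
        linarith
    · rintro ⟨k, hk1, hk2⟩
      have h3 : ⌈z⌉ = k + 1 := by
        rw [Int.ceil_eq_iff]; push_cast; constructor <;> linarith
      have h4 : ⌈z - β⌉ = k := by
        rw [Int.ceil_eq_iff]; constructor <;> linarith
      rw [h3, h4] at h0
      have h5 : ((y j : ℕ) : ℤ) = 1 := by rw [h0]; ring
      ext
      exact_mod_cast h5
  · -- the operator and the eigenvector
    obtain ⟨H, hH, hsa⟩ := Pool.Agent.Helper434.PSCplx.exists_H
      (fun m => lam * ((y m : ℕ) : ℝ)) (C := |lam|) (fun m => by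
        rw [abs_mul]
        have h1 : |(((y m : ℕ) : ℝ))| ≤ 1 := by
          simp only [hy]
          split_ifs <;> simp
        have h2 := abs_nonneg lam
        nlinarith)
    refine ⟨H, ?_, hsa, E, ?_⟩
    · intro ψ m
      rw [hH]
      push_cast
      rfl
    have hmem : Memℓp (fun j : ℤ => ((φ j : ℝ) : ℂ)) 2 := by
      apply memℓp_gen
      have h1 := (lp.memℓp φ).summable (by norm_num)
      refine h1.congr fun j => ?_
      rw [Complex.norm_real]
    set ψ : L2Z := ⟨fun j : ℤ => ((φ j : ℝ) : ℂ), hmem⟩ with hψ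
    have hψj : ∀ j, ψ j = ((φ j : ℝ) : ℂ) := fun j => rfl
    have hψ0 : ψ ≠ 0 := by
      intro h
      apply hφ0
      ext j
      have h1 : ψ j = 0 := by rw [h]; rfl
      rw [hψj] at h1
      have h2 : φ j = 0 := Complex.ofReal_eq_zero.mp h1
      exact h2
    have hHψ : H ψ = (E : ℂ) • ψ := by
      ext m
      rw [hH, lp.coeFn_smul, Pi.smul_apply, smul_eq_mul, hψj, hψj, hψj]
      have h1 := heig m
      have h2 : ((y m : ℕ) : ℝ) = (x m : ℝ) := by exact_mod_cast hyx m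
      rw [← h2] at h1
      have h3 := congrArg (fun r : ℝ => (r : ℂ)) h1
      push_cast at h3 ⊢
      exact h3
    have hspec : IsSpectralMeasure H ψ (ENNReal.ofReal (‖ψ‖ ^ 2) • Measure.dirac E) := by
      refine ⟨?_, fun f hf => ?_⟩
      · exact Measure.smul_finite _ ENNReal.ofReal_ne_top
      · rw [Pool.Agent.Helper434.PSCplx.inner_cfc hsa hψ0 hHψ f hf, integral_smul_measure,
          integral_dirac, ENNReal.toReal_ofReal (sq_nonneg _), smul_eq_mul]
    refine ⟨ψ, hψ0, hHψ, hspec, ?_⟩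
    intro μ hμ
    have := hμ.1
    have := hspec.1
    apply ext_of_forall_integral_eq_of_IsFiniteMeasure
    intro f
    have h1 := hμ.2 f f.continuous
    have h2 := hspec.2 f f.continuous
    rw [h1] at h2
    exact_mod_cast h2

end Pool.Agent.Results.MP_940d9d_mp.PointSpectrum
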